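import Pool.Agent.H66.Bks2

open Set Topology Asymptotics

namespace Pool.Agent.Results.MP_96bc49_an.ShilovYes

open Pool.Agent.H66.Bks

theorem result : ∀ n : ℕ, 0 < n → ∀ p ∈ Shilov n,
    ∀ F : EuclideanSpace ℂ (Fin n) → EuclideanSpace ℂ (Fin n),
      DifferentiableOn ℂ F (Gn n) → MapsTo F (Gn n) (Gn n) →
      ((fun z => F z - z) =o[𝓝[Gn n] p] fun z => ‖z - p‖ ^ 3) → ∀ z ∈ Gn n, F z = z :=
  fun _ hn _ hp _ hF hm ho => final hn hp hF hm ho

end Pool.Agent.Results.MP_96bc49_an.ShilovYes
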